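import Pool.Agent.H43.BZ.Stm2

/-!
# KKI: uniform integrability of the weight
-/

set_option autoImplicit false

open MeasureTheory Metric Set

namespace Pool.Agent.H280.BZ

open Pool.Agent.H43.BZ

/-- the singular part -/
noncomputable def ph {d : ℕ} (γ : ℝ) (z : E d) : ℝ := (ball (0 : E d) 1).indicator (fun z => ‖z‖ ^ γ) z

lemma ph_nonneg {d : ℕ} (γ : ℝ) (z : E d) : 0 ≤ ph γ z :=
  indicator_nonneg (fun _ _ => Real.rpow_nonneg (norm_nonneg _) _) z

lemma ph_int {d : ℕ} (hd : 2 ≤ d) {γ : ℝ} (hγ : -(d : ℝ) < γ) : Integrable (ph (d := d) γ) := by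
  have hf : Module.finrank ℝ (E d) = d := finrank_euclideanSpace_fin
  unfold ph
  change Integrable ((ball (0 : E d) 1).indicator (fun z => ‖z‖ ^ γ))
  rw [integrable_indicator_iff measurableSet_ball]
  refine integrableOn_ball_of_norm_le_rpow (C := 1) (α := -γ) ?_ ?_ ?_ ?_
  · rw [hf]
    omega
  · rw [hf]
    linarith
  · refine Filter.Eventually.of_forall fun x => ?_
    rw [neg_neg, one_mul, Real.norm_eq_abs, abs_of_nonneg (Real.rpow_nonneg (norm_nonneg _) _)]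
  · exact (measurable_norm.pow_const γ).aestronglyMeasurable

/-- the power of the distance -/
lemma rpow_le_ph {d : ℕ} {γ : ℝ} (hγ : γ < 0) (z : E d) : ‖z‖ ^ γ ≤ 1 + ph γ z := by
  unfold ph
  by_cases h : z ∈ ball (0 : E d) 1
  · rw [indicator_of_mem h]
    linarith
  · rw [indicator_of_notMem h]
    rw [mem_ball_zero_iff, not_lt] at h
    rw [add_zero]
    exact Real.rpow_le_one_of_one_le_of_nonpos h hγ.le

/-- the bound for the weight -/
lemma kk_le {d : ℕ} {s γ : ℝ} (hs0 : 0 < s) (hs1 : s < 1) (hγ : γ + 2 * s ≤ 2) (v w : E d) :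
    kk γ s v w ≤ (1 + ph γ (v - w)) * (1 + ‖w‖) ^ 2 := by
  have hL1 : 1 ≤ 1 + ‖w‖ := by linarith [norm_nonneg w]
  obtain ⟨L, hL⟩ : ∃ L, L = 1 + ‖w‖ := ⟨_, rfl⟩
  obtain ⟨r, hr⟩ : ∃ r, r = ‖v - w‖ := ⟨_, rfl⟩
  have hr0 : 0 ≤ r := by rw [hr]; exact norm_nonneg _
  have hp := ph_nonneg γ (v - w)
  unfold kk
  rw [← hL, ← hr]
  rw [← hL] at hL1
  have hL0 : 0 < L := by linarith
  have hden : 1 ≤ 1 + (r / L) ^ 2 := by
    have := sq_nonneg (r / L)
    linarith
  rcases le_or_gt 0 γ with h0 | h0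
  · have h1 : (r / L) ^ γ ≤ 1 + (r / L) ^ 2 := by
      have ht : 0 ≤ r / L := by positivity
      rcases le_total (r / L) 1 with h | h
      · have := Real.rpow_le_one ht h h0
        linarith
      · have h2 : (r / L) ^ γ ≤ (r / L) ^ (2 : ℝ) :=
          Real.rpow_le_rpow_of_exponent_le h (by linarith)
        rw [Real.rpow_two] at h2
        linarith
    have h2 : r ^ γ = (r / L) ^ γ * L ^ γ := by
      rw [← Real.mul_rpow (by positivity) hL0.le, div_mul_cancel₀ _ hL0.ne']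
    have h3 : L ^ γ * L ^ (2 * s) ≤ L ^ 2 := by
      rw [← Real.rpow_add hL0, ← Real.rpow_two]
      exact Real.rpow_le_rpow_of_exponent_le hL1 hγ
    rw [div_le_iff₀ (by linarith), h2]
    have h4 : 0 ≤ L ^ γ * L ^ (2 * s) := by positivity
    calc (r / L) ^ γ * L ^ γ * L ^ (2 * s) = (r / L) ^ γ * (L ^ γ * L ^ (2 * s)) := by ring
      _ ≤ (1 + (r / L) ^ 2) * L ^ 2 := mul_le_mul h1 h3 h4 (by linarith)
      _ = 1 * L ^ 2 * (1 + (r / L) ^ 2) := by ring
      _ ≤ (1 + ph γ (v - w)) * L ^ 2 * (1 + (r / L) ^ 2) := by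
          refine mul_le_mul_of_nonneg_right ?_ (by linarith)
          refine mul_le_mul_of_nonneg_right ?_ (by positivity)
          linarith
  · have h1 : r ^ γ ≤ 1 + ph γ (v - w) := by
      rw [hr]
      exact rpow_le_ph h0 _
    have h3 : L ^ (2 * s) ≤ L ^ 2 := by
      rw [← Real.rpow_two]
      exact Real.rpow_le_rpow_of_exponent_le hL1 (by linarith)
    refine (div_le_self (by positivity) hden).trans ?_
    exact mul_le_mul h1 h3 (by positivity) (by linarith)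

/-- the decaying power -/
lemma dec_int {d : ℕ} (n : ℕ) (hn : 1 ≤ n) :
    Integrable (fun w : E d => ((1 + ‖w‖) ^ (d + n))⁻¹) := by
  have h1 : Integrable (fun w : E d => (1 + ‖w‖) ^ (-((d + n : ℕ) : ℝ))) := by
    refine integrable_one_add_norm ?_
    rw [finrank_euclideanSpace_fin]
    exact_mod_cast (show d < d + n by omega)
  refine h1.congr (Filter.Eventually.of_forall fun w => ?_)
  beta_reduce
  rw [Real.rpow_neg (by positivity), Real.rpow_natCast]

lemma dec_mul {L : ℝ} (hL : 1 ≤ L) (d a n : ℕ) : L ^ a * (L ^ (d + (a + n)))⁻¹ = (L ^ (d + n))⁻¹ := by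
  have hL0 : L ≠ 0 := by positivity
  rw [show d + (a + n) = a + (d + n) by ring, pow_add L a, mul_inv, ← mul_assoc,
    mul_inv_cancel₀ (pow_ne_zero _ hL0), one_mul]

theorem KKI : S_KKI := by
  intro d hd s γ hs0 hs1 hγ0 hγ
  have hph := ph_int hd hγ0
  have hd5 : Integrable (fun w : E d => ((1 + ‖w‖) ^ (d + 5))⁻¹) := dec_int 5 (by norm_num)
  have hd3 : Integrable (fun w : E d => ((1 + ‖w‖) ^ (d + 3))⁻¹) := dec_int 3 (by norm_num)
  have hphv : ∀ v : E d, Integrable (fun w : E d => ph γ (v - w)) := fun v => hph.comp_sub_left v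
  have hle1 : ∀ (w : E d) (n : ℕ), ((1 + ‖w‖) ^ n)⁻¹ ≤ 1 := fun w n =>
    inv_le_one_of_one_le₀ (one_le_pow₀ (by linarith [norm_nonneg w]))
  have hbd : ∀ v w : E d, kk γ s v w * ((1 + ‖w‖) ^ (d + 7))⁻¹ ≤
      ((1 + ‖w‖) ^ (d + 5))⁻¹ + ph γ (v - w) := by
    intro v w
    have hL1 : 1 ≤ 1 + ‖w‖ := by linarith [norm_nonneg w]
    have hp := ph_nonneg γ (v - w)
    have h1 := mul_le_mul_of_nonneg_right (kk_le hs0 hs1 hγ v w)
      (show 0 ≤ ((1 + ‖w‖) ^ (d + 7))⁻¹ by positivity)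
    refine h1.trans ?_
    rw [mul_assoc, show d + 7 = d + (2 + 5) by ring, dec_mul hL1, add_mul, one_mul]
    have h2 := mul_le_mul_of_nonneg_left (hle1 w (d + 5)) hp
    linarith
  have hkk0 : ∀ v w : E d, 0 ≤ kk γ s v w * ((1 + ‖w‖) ^ (d + 7))⁻¹ := by
    intro v w
    unfold kk
    have : 0 ≤ ‖v - w‖ ^ γ := Real.rpow_nonneg (norm_nonneg _) _
    positivity
  have hmeas : ∀ v : E d, Measurable (fun w : E d => ‖v - w‖ ^ γ) := fun v =>
    ((measurable_const.sub measurable_id).norm).pow_const γ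
  have hmeas2 : Measurable (fun w : E d => (1 + ‖w‖) ^ (2 * s)) :=
    (measurable_const.add measurable_norm).pow_const _
  have hmeas3 : ∀ n : ℕ, Measurable (fun w : E d => ((1 + ‖w‖) ^ n)⁻¹) := fun n =>
    ((measurable_const.add measurable_norm).pow_const n).inv
  have hint : ∀ v : E d, Integrable (fun w : E d => kk γ s v w * ((1 + ‖w‖) ^ (d + 7))⁻¹) := by
    intro v
    refine (hd5.add (hphv v)).mono' ?_ ?_
    · refine Measurable.aestronglyMeasurable ?_
      unfold kk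
      refine Measurable.mul (Measurable.div ((hmeas v).mul hmeas2) ?_) (hmeas3 _)
      exact measurable_const.add (((measurable_const.sub measurable_id).norm.div
        (measurable_const.add measurable_norm)).pow_const 2)
    · refine Filter.Eventually.of_forall fun w => ?_
      rw [Real.norm_eq_abs, abs_of_nonneg (hkk0 v w)]
      exact hbd v w
  refine ⟨(∫ w : E d, ((1 + ‖w‖) ^ (d + 5))⁻¹) + ∫ z : E d, ph γ z, fun v => ⟨hint v, ?_, ?_⟩⟩
  · have h1 : ∫ w : E d, ph γ (v - w) = ∫ z : E d, ph γ z :=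
      integral_sub_left_eq_self (fun z : E d => ph γ z) volume v
    rw [← h1, ← integral_add hd5 (hphv v)]
    exact integral_mono (hint v) (hd5.add (hphv v)) (fun w => hbd v w)
  · refine ((hd3.const_mul ((1 + ‖v‖) ^ 2)).add (hphv v)).mono' ?_ ?_
    · exact (((hmeas v).mul hmeas2).mul (hmeas3 _)).aestronglyMeasurable
    · refine Filter.Eventually.of_forall fun w => ?_
      have hL1 : 1 ≤ 1 + ‖w‖ := by linarith [norm_nonneg w]
      have hM1 : 1 ≤ 1 + ‖v‖ := by linarith [norm_nonneg v]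
      have hp := ph_nonneg γ (v - w)
      have hr0 : 0 ≤ ‖v - w‖ ^ γ := Real.rpow_nonneg (norm_nonneg _) _
      have h3 : (1 + ‖w‖) ^ (2 * s) ≤ (1 + ‖w‖) ^ 2 := by
        rw [← Real.rpow_two]
        exact Real.rpow_le_rpow_of_exponent_le hL1 (by linarith)
      have h4 : ‖v - w‖ ^ γ ≤ (1 + ‖v‖) ^ 2 * (1 + ‖w‖) ^ 2 + ph γ (v - w) := by
        have h5 : 1 ≤ (1 + ‖v‖) ^ 2 * (1 + ‖w‖) ^ 2 := by
          have h6 := one_le_pow₀ hM1 (n := 2)
          have h7 := one_le_pow₀ hL1 (n := 2)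
          nlinarith
        rcases le_or_gt 0 γ with h0 | h0
        · have h6 : ‖v - w‖ ≤ (1 + ‖v‖) * (1 + ‖w‖) := by
            have h7 := norm_sub_le v w
            have h8 := norm_nonneg v
            have h9 := norm_nonneg w
            nlinarith
          have h7 : ‖v - w‖ ^ γ ≤ ((1 + ‖v‖) * (1 + ‖w‖)) ^ γ :=
            Real.rpow_le_rpow (norm_nonneg _) h6 h0
          have h8 : ((1 + ‖v‖) * (1 + ‖w‖)) ^ γ ≤ ((1 + ‖v‖) * (1 + ‖w‖)) ^ (2 : ℝ) := by
            refine Real.rpow_le_rpow_of_exponent_le ?_ (by linarith)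
            nlinarith
          rw [Real.rpow_two, mul_pow] at h8
          linarith
        · have h6 := rpow_le_ph h0 (v - w)
          linarith
      have h5 : (1 + ‖w‖) ^ 2 * ((1 + ‖w‖) ^ (d + 7))⁻¹ = ((1 + ‖w‖) ^ (d + 5))⁻¹ := by
        rw [show d + 7 = d + (2 + 5) by ring, dec_mul hL1]
      have h6 : (1 + ‖w‖) ^ 2 * ((1 + ‖w‖) ^ (d + 5))⁻¹ = ((1 + ‖w‖) ^ (d + 3))⁻¹ := by
        rw [show d + 5 = d + (2 + 3) by ring, dec_mul hL1]
      rw [Real.norm_eq_abs, abs_of_nonneg (by positivity)]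
      calc ‖v - w‖ ^ γ * (1 + ‖w‖) ^ (2 * s) * ((1 + ‖w‖) ^ (d + 7))⁻¹ ≤
          ((1 + ‖v‖) ^ 2 * (1 + ‖w‖) ^ 2 + ph γ (v - w)) * (1 + ‖w‖) ^ 2 *
            ((1 + ‖w‖) ^ (d + 7))⁻¹ := by
            refine mul_le_mul_of_nonneg_right ?_ (by positivity)
            exact mul_le_mul h4 h3 (by positivity) (by positivity)
        _ = ((1 + ‖v‖) ^ 2 * (1 + ‖w‖) ^ 2 + ph γ (v - w)) *
            ((1 + ‖w‖) ^ 2 * ((1 + ‖w‖) ^ (d + 7))⁻¹) := by ring
        _ = (1 + ‖v‖) ^ 2 * ((1 + ‖w‖) ^ 2 * ((1 + ‖w‖) ^ (d + 5))⁻¹) +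
            ph γ (v - w) * ((1 + ‖w‖) ^ (d + 5))⁻¹ := by rw [h5]; ring
        _ ≤ (1 + ‖v‖) ^ 2 * ((1 + ‖w‖) ^ (d + 3))⁻¹ + ph γ (v - w) := by
            rw [h6]
            have h2 := mul_le_mul_of_nonneg_left (hle1 w (d + 5)) hp
            linarith

end Pool.Agent.H280.BZ
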