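import Pool.Agent.H765.BZ.Stm

/-!
# BZ-DOM: sums over sets of bounded cardinality along an ultrafilter
-/

set_option autoImplicit false

open Filter Topology Finset

namespace Pool.Agent.H280.BZ.DOM

open Pool.Agent.H765.BZ Pool.Agent.H765.CS

theorem sum_eq_tsum (s : Finset ℕ) (k : ℕ) : ∑ l ∈ s, 1 / (l : ℝ) ^ (2 * k) =
    ∑' l : ℕ, if l ∈ s then 1 / (l : ℝ) ^ (2 * k) else 0 := by
  rw [tsum_eq_sum (s := s) (fun l hl => if_neg hl)]
  exact Finset.sum_congr rfl fun l hl => (if_pos hl).symm

theorem t_DOM : S_DOM := by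
  intro F a N h
  have hfin : {l : ℕ | ∀ᶠ n in (F : Filter ℤ), l ∈ a n}.Finite := by
    by_contra hinf
    have hinf' : {l : ℕ | ∀ᶠ n in (F : Filter ℤ), l ∈ a n}.Infinite := hinf
    obtain ⟨t, ht, htc⟩ := hinf'.exists_subset_card_eq (N + 1)
    have h1 : ∀ᶠ n in (F : Filter ℤ), ∀ l ∈ t, l ∈ a n :=
      (Filter.eventually_all_finset t).2 fun l hl => ht hl
    obtain ⟨n, h2, h3⟩ := (h1.and h).exists
    have h4 : t.card ≤ (a n).card := Finset.card_le_card h2
    omega
  have hmem : ∀ l, l ∈ hfin.toFinset ↔ ∀ᶠ n in (F : Filter ℤ), l ∈ a n := by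
    intro l
    rw [Set.Finite.mem_toFinset]
    rfl
  refine ⟨hfin.toFinset, ?_, ?_⟩
  · have h1 : ∀ᶠ n in (F : Filter ℤ), ∀ l ∈ hfin.toFinset, l ∈ a n :=
      (Filter.eventually_all_finset _).2 fun l hl => (hmem l).1 hl
    filter_upwards [h1] with n hn
    exact hn
  · intro k hk
    simp only [sum_eq_tsum]
    refine tendsto_tsum_of_dominated_convergence (bound := fun l : ℕ => 1 / (l : ℝ) ^ 2)
      (Real.summable_one_div_nat_pow.2 one_lt_two) ?_ ?_
    · intro l
      rcases F.em (fun n => l ∈ a n) with h1 | h1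
      · rw [if_pos ((hmem l).2 h1)]
        refine tendsto_const_nhds.congr' ?_
        filter_upwards [h1] with n hn
        exact (if_pos hn).symm
      · have h2 : l ∉ hfin.toFinset := by
          intro h3
          have h4 := (hmem l).1 h3
          obtain ⟨n, h5, h6⟩ := (h4.and h1).exists
          exact h6 h5
        rw [if_neg h2]
        refine tendsto_const_nhds.congr' ?_
        filter_upwards [h1] with n hn
        exact (if_neg hn).symm
    · refine Eventually.of_forall fun n l => ?_
      have h0 : (0 : ℝ) ≤ 1 / (l : ℝ) ^ 2 := by positivity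
      split_ifs with h1
      · rw [Real.norm_eq_abs, abs_of_nonneg (by positivity)]
        rcases Nat.eq_zero_or_pos l with hl | hl
        · subst hl
          rw [Nat.cast_zero, zero_pow (by omega), zero_pow (by omega)]
        · have hl1 : (1 : ℝ) ≤ l := by exact_mod_cast hl
          exact one_div_le_one_div_of_le (by positivity)
            (pow_le_pow_right₀ hl1 (by omega))
      · rw [norm_zero]
        exact h0

end Pool.Agent.H280.BZ.DOM
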